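import Mathlib

namespace Pool.Agent.Results.MP_1d13cc_al.ACCPNotAcyclic

/-- `x y ≠ x` and `y x ≠ x` whenever `y` is not a unit. -/
def IsUnitCancellative (H : Type) [Monoid H] : Prop :=
  ∀ x y : H, ¬ IsUnit y → x * y ≠ x ∧ y * x ≠ x

/-- `u x v ≠ x` whenever `u` or `v` is not a unit. -/
def IsAcyclic (H : Type) [Monoid H] : Prop :=
  ∀ u v x : H, (¬ IsUnit u ∨ ¬ IsUnit v) → u * x * v ≠ x

/-- The principal two-sided ideal `H a H`. -/
def principal {H : Type} [Monoid H] (a : H) : Set H := {z | ∃ x y : H, z = x * a * y}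

/-- The ascending chain condition on principal two-sided ideals. -/
def ACCP (H : Type) [Monoid H] : Prop :=
  ¬ ∃ a : ℕ → H, ∀ n, principal (a n) ⊂ principal (a (n + 1))

/-- The underlying set `ℤ² × ℕ` of the semidirect product `ℤ² ⋊ ℕ`. -/
@[ext] structure M : Type where
  a : ℤ
  b : ℤ
  j : ℕ

instance : Monoid M where
  mul x y := ⟨x.a + y.a * (2 - 3 ^ x.j) + y.b * (3 ^ x.j - 1),
    x.b + y.a * (2 - 2 * 3 ^ x.j) + y.b * (2 * 3 ^ x.j - 1), x.j + y.j⟩
  one := ⟨0, 0, 0⟩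
  mul_assoc x y z := by
    ext
    · show x.a + y.a * (2 - 3 ^ x.j) + y.b * (3 ^ x.j - 1) + z.a * (2 - 3 ^ (x.j + y.j)) +
        z.b * (3 ^ (x.j + y.j) - 1) = x.a + (y.a + z.a * (2 - 3 ^ y.j) + z.b * (3 ^ y.j - 1)) *
        (2 - 3 ^ x.j) + (y.b + z.a * (2 - 2 * 3 ^ y.j) + z.b * (2 * 3 ^ y.j - 1)) * (3 ^ x.j - 1)
      rw [pow_add]; ring
    · show x.b + y.a * (2 - 2 * 3 ^ x.j) + y.b * (2 * 3 ^ x.j - 1) +
        z.a * (2 - 2 * 3 ^ (x.j + y.j)) +
        z.b * (2 * 3 ^ (x.j + y.j) - 1) = x.b + (y.a + z.a * (2 - 3 ^ y.j) + z.b * (3 ^ y.j - 1)) *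
        (2 - 2 * 3 ^ x.j) + (y.b + z.a * (2 - 2 * 3 ^ y.j) + z.b * (2 * 3 ^ y.j - 1)) *
        (2 * 3 ^ x.j - 1)
      rw [pow_add]; ring
    · exact add_assoc _ _ _
  one_mul x := by
    ext
    · show 0 + x.a * (2 - 3 ^ 0) + x.b * (3 ^ 0 - 1) = x.a
      ring
    · show 0 + x.a * (2 - 2 * 3 ^ 0) + x.b * (2 * 3 ^ 0 - 1) = x.b
      ring
    · exact zero_add _
  mul_one x := by
    ext
    · show x.a + 0 * (2 - 3 ^ x.j) + 0 * (3 ^ x.j - 1) = x.a
      ring
    · show x.b + 0 * (2 - 2 * 3 ^ x.j) + 0 * (2 * 3 ^ x.j - 1) = x.b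
      ring
    · exact add_zero _

theorem mul_a (x y : M) : (x * y).a = x.a + y.a * (2 - 3 ^ x.j) + y.b * (3 ^ x.j - 1) := rfl
theorem mul_b (x y : M) : (x * y).b = x.b + y.a * (2 - 2 * 3 ^ x.j) + y.b * (2 * 3 ^ x.j - 1) := rfl
theorem mul_j (x y : M) : (x * y).j = x.j + y.j := rfl
theorem one_a : (1 : M).a = 0 := rfl
theorem one_b : (1 : M).b = 0 := rfl
theorem one_j : (1 : M).j = 0 := rfl

/-- The submonoid of elements `(n, j)` with `j ≥ 1` or `n ∈ ℕ²`. -/
def H : Submonoid M where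
  carrier := {x | x.j = 0 → 0 ≤ x.a ∧ 0 ≤ x.b}
  one_mem' := fun _ => ⟨le_refl _, le_refl _⟩
  mul_mem' := by
    intro x y hx hy hj
    rw [mul_j] at hj
    have h1 : x.j = 0 := by omega
    have h2 : y.j = 0 := by omega
    rw [mul_a, mul_b, h1]
    have := hx h1
    have := hy h2
    simp only [pow_zero]
    constructor <;> linarith

theorem level_zero_unit (x : H) (hx : x.1.j = 0) (ha : x.1.a = 0) (hb : x.1.b = 0) : x = 1 := by
  apply Subtype.ext
  ext
  · exact ha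
  · exact hb
  · exact hx

theorem unitCanc : IsUnitCancellative H := by
  intro x y hy
  constructor
  · intro h
    apply hy
    have h0 : x.1 * y.1 = x.1 := congrArg Subtype.val h
    have hj := congrArg M.j h0
    have ha := congrArg M.a h0
    have hb := congrArg M.b h0
    rw [mul_j] at hj
    rw [mul_a] at ha
    rw [mul_b] at hb
    have hj' : y.1.j = 0 := by omega
    have e1 : y.1.a * (2 - 3 ^ x.1.j) + y.1.b * (3 ^ x.1.j - 1) = 0 := by linarith
    have e2 : y.1.a * (2 - 2 * 3 ^ x.1.j) + y.1.b * (2 * 3 ^ x.1.j - 1) = 0 := by linarith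
    -- 2 * e1 - e2 : 2 a - b = 0
    have e3 : 2 * y.1.a - y.1.b = 0 := by linarith
    have e4 : y.1.b = 2 * y.1.a := by linarith
    rw [e4] at e1
    have e5 : y.1.a * 3 ^ x.1.j = 0 := by linarith
    have e6 : y.1.a = 0 := by
      rcases mul_eq_zero.mp e5 with h | h
      · exact h
      · exact absurd h (by positivity)
    have : y = 1 := level_zero_unit y hj' e6 (by rw [e4, e6]; rfl)
    rw [this]
    exact isUnit_one
  · intro h
    apply hy
    have h0 : y.1 * x.1 = x.1 := congrArg Subtype.val h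
    have hj := congrArg M.j h0
    have ha := congrArg M.a h0
    have hb := congrArg M.b h0
    rw [mul_j] at hj
    have hj' : y.1.j = 0 := by omega
    rw [mul_a, hj'] at ha
    rw [mul_b, hj'] at hb
    simp only [pow_zero] at ha hb
    have : y = 1 := level_zero_unit y hj' (by linarith) (by linarith)
    rw [this]
    exact isUnit_one

theorem unit_iff (x : H) (hx : IsUnit x) : x = 1 := by
  obtain ⟨u, rfl⟩ := hx
  have h0 : (u : H).1 * ((u⁻¹ : Hˣ) : H).1 = 1 := congrArg Subtype.val (Units.mul_inv u)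
  have hj := congrArg M.j h0
  rw [mul_j, one_j] at hj
  have h1 : (u : H).1.j = 0 := by omega
  have h2 : ((u⁻¹ : Hˣ) : H).1.j = 0 := by omega
  have ha := congrArg M.a h0
  have hb := congrArg M.b h0
  rw [mul_a, h1, one_a] at ha
  rw [mul_b, h1, one_b] at hb
  simp only [pow_zero] at ha hb
  have g1 := (u : H).2 h1
  have g2 := ((u⁻¹ : Hˣ) : H).2 h2
  exact level_zero_unit _ h1 (by linarith [g1.1, g2.1, ha]) (by linarith [g1.2, g2.2, hb])

theorem not_acyclic : ¬ IsAcyclic H := by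
  intro h
  let u : H := ⟨⟨1, 4, 0⟩, fun _ => ⟨by norm_num, by norm_num⟩⟩
  let v : H := ⟨⟨1, 0, 0⟩, fun _ => ⟨by norm_num, by norm_num⟩⟩
  let x : H := ⟨⟨0, 0, 1⟩, fun h => absurd h (by norm_num)⟩
  refine h u v x (Or.inl ?_) ?_
  · intro hu
    have := unit_iff u hu
    have h1 := congrArg (fun z : H => z.1.a) this
    exact absurd h1 (by show ¬ (1 : ℤ) = 0; norm_num)
  · apply Subtype.ext
    show (⟨1, 4, 0⟩ : M) * ⟨0, 0, 1⟩ * ⟨1, 0, 0⟩ = ⟨0, 0, 1⟩
    ext
    · rw [mul_a, mul_a, mul_j]; norm_num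
    · rw [mul_b, mul_b, mul_j]; norm_num
    · rfl

/-- At level `j ≥ 1` every element divides every other one. -/
theorem divides_of_level (x y : H) (hx : 1 ≤ x.1.j) (hxy : x.1.j = y.1.j) :
    ∃ p q : H, y = p * x * q := by
  -- q = (c, 0), p = difference
  set t : ℤ := 3 ^ x.1.j with ht
  have ht3 : 3 ≤ t := by
    rw [ht]
    calc (3 : ℤ) = 3 ^ 1 := by norm_num
      _ ≤ 3 ^ x.1.j := by
        apply pow_le_pow_right₀ (by norm_num) hx
  obtain ⟨c, hc⟩ : ∃ c : ℤ, c = |y.1.a - x.1.a| + |y.1.b - x.1.b| := ⟨_, rfl⟩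
  have hc0 : 0 ≤ c := by rw [hc]; positivity
  have h1 := neg_abs_le (y.1.a - x.1.a)
  have h2 := neg_abs_le (y.1.b - x.1.b)
  have h3 := abs_nonneg (y.1.a - x.1.a)
  have h4 := abs_nonneg (y.1.b - x.1.b)
  have k1 : 0 ≤ y.1.a - x.1.a - c * (2 - t) := by nlinarith
  have k2 : 0 ≤ y.1.b - x.1.b - c * (2 - 2 * t) := by nlinarith
  refine ⟨⟨⟨y.1.a - x.1.a - c * (2 - t), y.1.b - x.1.b - c * (2 - 2 * t), 0⟩, fun _ => ⟨k1, k2⟩⟩,
    ⟨⟨c, 0, 0⟩, fun _ => ⟨hc0, le_refl _⟩⟩, ?_⟩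
  apply Subtype.ext
  show y.1 = (⟨y.1.a - x.1.a - c * (2 - t), y.1.b - x.1.b - c * (2 - 2 * t), 0⟩ : M) * x.1 *
    ⟨c, 0, 0⟩
  ext
  · rw [mul_a, mul_a, mul_j]
    simp only [pow_zero, zero_add]
    rw [← ht]; ring
  · rw [mul_b, mul_b, mul_j]
    simp only [pow_zero, zero_add]
    rw [← ht]; ring
  · rw [mul_j, mul_j]
    simp [hxy]

theorem self_mem {H : Type} [Monoid H] (a : H) : a ∈ principal a := ⟨1, 1, by simp⟩

theorem principal_mono {H : Type} [Monoid H] {a b : H} (h : a ∈ principal b) :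
    principal a ⊆ principal b := by
  rintro z ⟨x, y, rfl⟩
  obtain ⟨p, q, rfl⟩ := h
  exact ⟨x * p, q * y, by simp [mul_assoc]⟩

/-- The measure: the level, then the sum of the coordinates at level zero. -/
def meas (x : H) : ℕ ×ₗ ℕ :=
  toLex (x.1.j, if x.1.j = 0 then (x.1.a + x.1.b).toNat else 0)

theorem meas_lt (x y : H) (h : principal x ⊂ principal y) : meas y < meas x := by
  obtain ⟨p, q, hpq⟩ : x ∈ principal y := h.1 (self_mem x)
  have hno : y ∉ principal x := fun hy => h.2 (principal_mono hy)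
  have h0 : x.1 = p.1 * y.1 * q.1 := congrArg Subtype.val hpq
  have hj := congrArg M.j h0
  rw [mul_j, mul_j] at hj
  rw [meas, meas, Prod.Lex.toLex_lt_toLex]
  by_cases hlt : y.1.j < x.1.j
  · left; exact hlt
  · right
    have hje : y.1.j = x.1.j := by omega
    refine ⟨hje, ?_⟩
    by_cases hz : x.1.j = 0
    · have hz' : y.1.j = 0 := by omega
      have hp0 : p.1.j = 0 := by omega
      have hq0 : q.1.j = 0 := by omega
      have ha := congrArg M.a h0
      have hb := congrArg M.b h0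
      rw [mul_a, mul_a, mul_j, hp0, hz'] at ha
      rw [mul_b, mul_b, mul_j, hp0, hz'] at hb
      simp only [pow_zero, zero_add] at ha hb
      have g1 := p.2 hp0
      have g2 := q.2 hq0
      have g3 := y.2 hz'
      simp only [hz, hz', if_true]
      show (y.1.a + y.1.b).toNat < (x.1.a + x.1.b).toNat
      rw [Int.toNat_lt_toNat (by
        by_contra hcon
        have e1 : p.1.a = 0 := by linarith [g1.1, g1.2, g2.1, g2.2, g3.1, g3.2]
        have e2 : p.1.b = 0 := by linarith [g1.1, g1.2, g2.1, g2.2, g3.1, g3.2]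
        have e3 : q.1.a = 0 := by linarith [g1.1, g1.2, g2.1, g2.2, g3.1, g3.2]
        have e4 : q.1.b = 0 := by linarith [g1.1, g1.2, g2.1, g2.2, g3.1, g3.2]
        apply hno
        rw [hpq, level_zero_unit p hp0 e1 e2, level_zero_unit q hq0 e3 e4, one_mul, mul_one]
        exact self_mem y)]
      by_contra hcon
      have e1 : p.1.a = 0 := by linarith [g1.1, g1.2, g2.1, g2.2]
      have e2 : p.1.b = 0 := by linarith [g1.1, g1.2, g2.1, g2.2]
      have e3 : q.1.a = 0 := by linarith [g1.1, g1.2, g2.1, g2.2]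
      have e4 : q.1.b = 0 := by linarith [g1.1, g1.2, g2.1, g2.2]
      apply hno
      rw [hpq, level_zero_unit p hp0 e1 e2, level_zero_unit q hq0 e3 e4, one_mul, mul_one]
      exact self_mem y
    · exfalso
      apply hno
      obtain ⟨p', q', h'⟩ := divides_of_level x y (by omega) hje.symm
      exact ⟨p', q', h'⟩

theorem accp : ACCP H := by
  rintro ⟨a, ha⟩
  have hwf : WellFounded (fun x y : ℕ ×ₗ ℕ => x < y) := wellFounded_lt
  obtain ⟨m, ⟨n, rfl⟩, hmin⟩ := hwf.has_min (Set.range (fun n => meas (a n))) ⟨_, 0, rfl⟩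
  exact hmin _ ⟨n + 1, rfl⟩ (meas_lt _ _ (ha n))

theorem result : ∃ (H : Type) (_ : Monoid H), IsUnitCancellative H ∧ ACCP H ∧ ¬ IsAcyclic H :=
  ⟨H, inferInstance, unitCanc, accp, not_acyclic⟩

end Pool.Agent.Results.MP_1d13cc_al.ACCPNotAcyclic
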